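import Pool.Agent.Helper35.GR.Defs2

/-!
# Differential polynomials (package P4a of MP_114a94_gt)

Smoothness, space derivative and time derivative of differential polynomials `DP`, and the
structure of `D_w F(u)`.
-/

set_option autoImplicit false

open scoped ContDiff Topology
open Set Filter

namespace Pool.Agent.GR

open Pool.Agent.Helper25.GrimReaper

variable {n : ℕ}

/-- Monotonicity in the order. -/
theorem P4a_mono {q m m' : ℕ} {f : Jet n → ℝ} (hf : DP q m f) (hm : m ≤ m') : DP q m' f := by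
  induction hf with
  | zero => exact DP.zero
  | base φ hφ => exact DP.base φ hφ
  | var w hw h1 hk => exact DP.var w hw h1 (hk.trans hm)
  | add _ _ ih1 ih2 => exact DP.add (ih1 hm) (ih2 hm)
  | mul _ _ ih1 ih2 => exact DP.mul (ih1 hm) (ih2 hm)

/-- Finite sums. -/
theorem P4a_sum {q m : ℕ} {ι : Type*} (s : Finset ι) (f : ι → Jet n → ℝ)
    (hf : ∀ a ∈ s, DP q m (f a)) : DP q m (fun J => ∑ a ∈ s, f a J) := by
  classical
  induction s using Finset.induction_on with
  | empty => simpa using DP.zero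
  | insert a s ha ih =>
    have h1 : (fun J : Jet n => ∑ b ∈ insert a s, f b J) = fun J => f a J + ∑ b ∈ s, f b J := by
      funext J; rw [Finset.sum_insert ha]
    rw [h1]
    exact DP.add (hf a (Finset.mem_insert_self a s))
      (ih fun b hb => hf b (Finset.mem_insert_of_mem hb))

theorem DP_contDiffOn {q m : ℕ} {f : Jet n → ℝ} (hf : DP q m f) {Ω : Set (E n)}
    (hΩ : IsOpen Ω) {u : E n → ℝ} (hu : ContDiffOn ℝ ∞ u Ω) :
    ContDiffOn ℝ ∞ (fun x => f (jet u x)) Ω := by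
  induction hf with
  | zero => exact contDiffOn_const
  | base φ hφ =>
    exact hφ.comp_contDiffOn (contDiffOn_pi.2 fun i => contDiffOn_Dw hΩ hu [i])
  | var w hw h1 hk => exact contDiffOn_Dw hΩ hu w
  | add _ _ ih1 ih2 => exact ih1.add ih2
  | mul _ _ ih1 ih2 => exact ih1.mul ih2

lemma P4a_differentiableAt {q m : ℕ} {f : Jet n → ℝ} (hf : DP q m f) {Ω : Set (E n)}
    (hΩ : IsOpen Ω) {u : E n → ℝ} (hu : ContDiffOn ℝ ∞ u Ω) {x : E n} (hx : x ∈ Ω) :
    DifferentiableAt ℝ (fun y => f (jet u y)) x :=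
  ((DP_contDiffOn hf hΩ hu).contDiffAt (hΩ.mem_nhds hx)).differentiableAt (by simp)

/-- Partial derivatives of the outer function. -/
lemma P4a_fderiv_pi {φ : (Fin n → ℝ) → ℝ} (z v : Fin n → ℝ) :
    fderiv ℝ φ z v = ∑ k, fderiv ℝ φ z (Pi.single k 1) * v k := by
  conv_lhs => rw [pi_eq_sum_univ' v, map_sum]
  refine Finset.sum_congr rfl fun k _ => ?_
  rw [map_smul, smul_eq_mul, mul_comm]

lemma P4a_contDiff_partial {φ : (Fin n → ℝ) → ℝ} (hφ : ContDiff ℝ ∞ φ) (k : Fin n) :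
    ContDiff ℝ ∞ (fun z => fderiv ℝ φ z (Pi.single k 1)) :=
  (hφ.fderiv_right (m := ∞) (by simp)).clm_apply contDiff_const

theorem DP_pd {q m : ℕ} {f : Jet n → ℝ} (hf : DP q m f) (i : Fin n) :
    ∃ g : Jet n → ℝ, DP (q + 1) (m + 1) g ∧ ∀ (Ω : Set (E n)) (_ : IsOpen Ω) (u : E n → ℝ),
      ContDiffOn ℝ ∞ u Ω → ∀ x ∈ Ω, pd i (fun y => f (jet u y)) x = g (jet u x) := by
  induction hf with
  | zero => exact ⟨fun _ => 0, DP.zero, fun Ω _ u _ x _ => pd_const i 0 x⟩
  | @base m φ hφ =>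
    refine ⟨fun J => ∑ k, fderiv ℝ φ (fun l => J [l]) (Pi.single k 1) * J [i, k],
      P4a_sum _ _ fun k _ => ?_, fun Ω hΩ u hu x hx => ?_⟩
    · exact DP.mul (DP.base _ (P4a_contDiff_partial hφ k))
        (DP.var [i, k] rfl le_rfl (by omega))
    · have h1 : HasFDerivAt φ (fderiv ℝ φ (fun l => Dw [l] u x)) (fun l => Dw [l] u x) :=
        (hφ.differentiable (by simp) _).hasFDerivAt
      have h2 : ∀ l, HasFDerivAt (Dw [l] u) (fderiv ℝ (Dw [l] u) x) x := fun l =>
        (((contDiffOn_Dw hΩ hu [l]).contDiffAt (hΩ.mem_nhds hx)).differentiableAt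
          (by simp)).hasFDerivAt
      have h3 := h1.comp x (hasFDerivAt_pi.2 h2)
      have h4 : pd i (fun y => φ (fun l => Dw [l] u y)) x
          = fderiv ℝ φ (fun l => Dw [l] u x) (fun l => Dw [i, l] u x) := by
        unfold pd
        rw [show (fun y => φ (fun l => Dw [l] u y)) = φ ∘ (fun y l => Dw [l] u y) from rfl,
          h3.fderiv]
        rfl
      exact h4.trans (P4a_fderiv_pi _ _)
  | @var m k w hw h1 hk =>
    exact ⟨fun J => J (i :: w), DP.var (i :: w) (by simp [hw]) (by omega) (by omega),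
      fun Ω _ u _ x _ => rfl⟩
  | @add q m f g hf hg ih1 ih2 =>
    obtain ⟨f', hf', hf2⟩ := ih1
    obtain ⟨g', hg', hg2⟩ := ih2
    refine ⟨fun J => f' J + g' J, DP.add hf' hg', fun Ω hΩ u hu x hx => ?_⟩
    rw [pd_add (P4a_differentiableAt hf hΩ hu hx) (P4a_differentiableAt hg hΩ hu hx),
      hf2 Ω hΩ u hu x hx, hg2 Ω hΩ u hu x hx]
  | @mul q q' m f g hf hg ih1 ih2 =>
    obtain ⟨f', hf', hf2⟩ := ih1
    obtain ⟨g', hg', hg2⟩ := ih2
    refine ⟨fun J => f J * g' J + g J * f' J, DP.add ?_ ?_, fun Ω hΩ u hu x hx => ?_⟩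
    · have := DP.mul (P4a_mono hf (Nat.le_succ m)) hg'
      rwa [← Nat.add_assoc] at this
    · have := DP.mul (P4a_mono hg (Nat.le_succ m)) hf'
      rwa [show q' + (q + 1) = q + q' + 1 by omega] at this
    · rw [pd_mul (P4a_differentiableAt hf hΩ hu hx) (P4a_differentiableAt hg hΩ hu hx),
        hf2 Ω hΩ u hu x hx, hg2 Ω hΩ u hu x hx]

/-- The coefficients as functions of the gradient. -/
noncomputable def P4a_gam (i j : Fin n) (z : Fin n → ℝ) : ℝ :=
  (if i = j then 1 else 0) - (1 + ∑ l, z l ^ 2)⁻¹ * (z i * z j)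

lemma P4a_gam_contDiff (i j : Fin n) : ContDiff ℝ ∞ (P4a_gam i j) := by
  unfold P4a_gam
  refine contDiff_const.sub (ContDiff.mul (ContDiff.inv ?_ ?_) ?_)
  · exact contDiff_const.add (ContDiff.sum fun l _ => (contDiff_apply ℝ ℝ l).pow 2)
  · intro z
    have : 0 ≤ ∑ l, z l ^ 2 := Finset.sum_nonneg fun l _ => sq_nonneg _
    positivity
  · exact (contDiff_apply ℝ ℝ i).mul (contDiff_apply ℝ ℝ j)

lemma P4a_gco_eq (u : E n → ℝ) (x : E n) (i j : Fin n) :
    gco u x i j = P4a_gam i j (fun l => jet u x [l]) := rfl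

lemma P4a_gco_DP (m : ℕ) (i j : Fin n) : DP 0 m (fun J : Jet n => P4a_gam i j (fun l => J [l])) :=
  DP.base _ (P4a_gam_contDiff i j)

lemma P4a_Fop_eq (u : E n → ℝ) (x : E n) :
    Fop u x = ∑ i, ∑ j, gco u x i j * Dw [i, j] u x := by
  unfold Fop gco
  simp only [Dw_cons, Dw_nil]
  have h1 : ∀ i j : Fin n, ((if i = j then (1 : ℝ) else 0)
      - (1 + gradSq u x)⁻¹ * (pd i u x * pd j u x)) * pd i (pd j u) x
      = (if i = j then pd i (pd j u) x else 0)
        - (1 + gradSq u x)⁻¹ * (pd i u x * pd j u x * pd i (pd j u) x) := by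
    intro i j
    split_ifs <;> ring
  simp only [h1, Finset.sum_sub_distrib, Finset.sum_ite_eq, Finset.mem_univ, if_true,
    Finset.mul_sum]

/-- Structure of `D_w F(u)`: principal part plus lower order differential polynomial. -/
theorem Dw_Fop_structure (w : List (Fin n)) :
    ∃ R : Jet n → ℝ, DP (w.length + 1) w.length R ∧
      ∀ (Ω : Set (E n)) (_ : IsOpen Ω) (u : E n → ℝ), ContDiffOn ℝ ∞ u Ω → ∀ x ∈ Ω,
        Dw w (Fop u) x = (∑ i, ∑ j, gco u x i j * Dw (i :: j :: w) u x) + R (jet u x) := by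
  induction w with
  | nil =>
    exact ⟨fun _ => 0, DP.zero, fun Ω _ u _ x _ => by rw [Dw_nil, P4a_Fop_eq, add_zero]⟩
  | cons k w ih =>
    obtain ⟨R, hR, hR2⟩ := ih
    obtain ⟨R', hR', hR'2⟩ := DP_pd hR k
    have hg : ∀ i j : Fin n, ∃ g : Jet n → ℝ, DP 1 1 g ∧ ∀ (Ω : Set (E n)) (_ : IsOpen Ω)
        (u : E n → ℝ), ContDiffOn ℝ ∞ u Ω → ∀ x ∈ Ω,
        pd k (fun y => P4a_gam i j (fun l => jet u y [l])) x = g (jet u x) := fun i j =>
      DP_pd (P4a_gco_DP 0 i j) k
    choose g hg1 hg2 using hg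
    refine ⟨fun J => (∑ i, ∑ j, g i j J * J (i :: j :: w)) + R' J, DP.add ?_ ?_, ?_⟩
    · refine P4a_sum _ _ fun i _ => P4a_sum _ _ fun j _ => ?_
      have h1 : DP (w.length + 1) (w.length + 1) (fun J : Jet n => J (i :: j :: w)) :=
        DP.var _ rfl (by omega) le_rfl
      have h2 := DP.mul (P4a_mono (hg1 i j) (show 1 ≤ w.length + 1 by omega)) h1
      rwa [show 1 + (w.length + 1) = (k :: w).length + 1 by simp; omega] at h2
    · simpa using hR'
    · intro Ω hΩ u hu x hx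
      have hd : ∀ v : List (Fin n), DifferentiableAt ℝ (Dw v u) x := fun v =>
        ((contDiffOn_Dw hΩ hu v).contDiffAt (hΩ.mem_nhds hx)).differentiableAt (by simp)
      have hgd : ∀ i j, DifferentiableAt ℝ (fun y => gco u y i j) x := fun i j =>
        P4a_differentiableAt (P4a_gco_DP 0 i j) hΩ hu hx
      have h1 : Dw (k :: w) (Fop u) x
          = pd k (fun y => (∑ i, ∑ j, gco u y i j * Dw (i :: j :: w) u y) + R (jet u y)) x :=
        pd_congr_on hΩ (fun y hy => hR2 Ω hΩ u hu y hy) k hx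
      rw [h1, pd_add _ (P4a_differentiableAt hR hΩ hu hx), hR'2 Ω hΩ u hu x hx, pd_sum]
      · have h3 : ∀ i ∈ (Finset.univ : Finset (Fin n)),
            pd k (fun y => ∑ j, gco u y i j * Dw (i :: j :: w) u y) x
            = (∑ j, gco u x i j * Dw (i :: j :: k :: w) u x)
              + ∑ j, g i j (jet u x) * jet u x (i :: j :: w) := by
          intro i _
          rw [pd_sum, ← Finset.sum_add_distrib]
          · refine Finset.sum_congr rfl fun j _ => ?_
            rw [pd_mul (hgd i j) (hd _)]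
            have h4 : pd k (fun y => gco u y i j) x = g i j (jet u x) := hg2 i j Ω hΩ u hu x hx
            have h5 : pd k (Dw (i :: j :: w) u) x = Dw (i :: j :: k :: w) u x := by
              have hp : (k :: i :: j :: w).Perm (i :: j :: k :: w) :=
                (List.Perm.swap i k _).trans ((List.Perm.swap j k w).cons i)
              exact Dw_perm_on hΩ hu hp hx
            rw [h4, h5]
            unfold jet
            ring
          · exact fun j _ => (hgd i j).mul (hd _)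
        rw [Finset.sum_congr rfl h3, Finset.sum_add_distrib]
        ring
      · exact fun i _ => DifferentiableAt.fun_sum fun j _ => (hgd i j).mul (hd _)
      · exact DifferentiableAt.fun_sum fun i _ =>
          DifferentiableAt.fun_sum fun j _ => (hgd i j).mul (hd _)

theorem Dw_Fop_DP (w : List (Fin n)) :
    ∃ G : Jet n → ℝ, DP (w.length + 1) (w.length + 1) G ∧
      ∀ (Ω : Set (E n)) (_ : IsOpen Ω) (u : E n → ℝ), ContDiffOn ℝ ∞ u Ω → ∀ x ∈ Ω,
        Dw w (Fop u) x = G (jet u x) := by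
  obtain ⟨R, hR, hR2⟩ := Dw_Fop_structure w
  refine ⟨fun J => (∑ i, ∑ j, P4a_gam i j (fun l => J [l]) * J (i :: j :: w)) + R J,
    DP.add (P4a_sum _ _ fun i _ => P4a_sum _ _ fun j _ => ?_) (P4a_mono hR (Nat.le_succ _)),
    fun Ω hΩ u hu x hx => hR2 Ω hΩ u hu x hx⟩
  have h1 : DP (w.length + 1) (w.length + 1) (fun J : Jet n => J (i :: j :: w)) :=
    DP.var _ rfl (by omega) le_rfl
  have h2 := DP.mul (P4a_gco_DP (w.length + 1) i j) h1
  rwa [Nat.zero_add] at h2

/-- Time derivative of a differential polynomial along a solution. -/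
theorem DP_dt {q m : ℕ} {f : Jet n → ℝ} (hf : DP q m f) :
    ∃ g : Jet n → ℝ, DP (q + 2) (m + 2) g ∧
      ∀ (I : Set ℝ) (Ω : Set (E n)) (_ : IsOpen Ω) (u : ℝ → E n → ℝ), IsSolOn I Ω u →
        ∀ t ∈ I, ∀ x ∈ Ω,
          HasDerivWithinAt (fun s => f (jet (u s) x)) (g (jet (u t) x)) I t := by
  induction hf with
  | zero => exact ⟨fun _ => 0, DP.zero, fun I Ω _ u _ t _ x _ => hasDerivWithinAt_const _ _ _⟩
  | @base m φ hφ =>
    have hG : ∀ k : Fin n, ∃ G : Jet n → ℝ, DP 2 2 G ∧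
        ∀ (Ω : Set (E n)) (_ : IsOpen Ω) (u : E n → ℝ), ContDiffOn ℝ ∞ u Ω → ∀ x ∈ Ω,
        Dw [k] (Fop u) x = G (jet u x) := fun k => Dw_Fop_DP [k]
    choose G hG1 hG2 using hG
    refine ⟨fun J => ∑ k, fderiv ℝ φ (fun l => J [l]) (Pi.single k 1) * G k J,
      P4a_sum _ _ fun k _ => ?_, fun I Ω hΩ u hu t ht x hx => ?_⟩
    · exact DP.mul (DP.base _ (P4a_contDiff_partial hφ k)) (P4a_mono (hG1 k) (by omega))
    · have h1 : HasFDerivAt φ (fderiv ℝ φ (fun l => Dw [l] (u t) x)) (fun l => Dw [l] (u t) x) :=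
        (hφ.differentiable (by simp) _).hasFDerivAt
      have h2 : ∀ l, HasDerivWithinAt (fun s => Dw [l] (u s) x) (Dw [l] (Fop (u t)) x) I t :=
        fun l => hu.deriv [l] t ht x hx
      have h3 := h1.comp_hasDerivWithinAt t (hasDerivWithinAt_pi.2 h2)
      have h4 : fderiv ℝ φ (fun l => Dw [l] (u t) x) (fun l => Dw [l] (Fop (u t)) x)
          = ∑ k, fderiv ℝ φ (fun l => jet (u t) x [l]) (Pi.single k 1) * G k (jet (u t) x) := by
        rw [P4a_fderiv_pi]
        refine Finset.sum_congr rfl fun k _ => ?_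
        rw [hG2 k Ω hΩ (u t) (hu.smooth t ht) x hx]
        rfl
      rw [h4] at h3
      exact h3
  | @var m k w hw h1 hk =>
    obtain ⟨G, hG, hG2⟩ := Dw_Fop_DP w
    refine ⟨G, ?_, fun I Ω hΩ u hu t ht x hx => ?_⟩
    · rw [hw] at hG
      exact P4a_mono hG (by omega)
    · have h2 := hu.deriv w t ht x hx
      rw [hG2 Ω hΩ (u t) (hu.smooth t ht) x hx] at h2
      exact h2
  | @add q m f g hf hg ih1 ih2 =>
    obtain ⟨f', hf', hf2⟩ := ih1
    obtain ⟨g', hg', hg2⟩ := ih2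
    exact ⟨fun J => f' J + g' J, DP.add hf' hg', fun I Ω hΩ u hu t ht x hx =>
      (hf2 I Ω hΩ u hu t ht x hx).add (hg2 I Ω hΩ u hu t ht x hx)⟩
  | @mul q q' m f g hf hg ih1 ih2 =>
    obtain ⟨f', hf', hf2⟩ := ih1
    obtain ⟨g', hg', hg2⟩ := ih2
    refine ⟨fun J => f' J * g J + f J * g' J, DP.add ?_ ?_, fun I Ω hΩ u hu t ht x hx => ?_⟩
    · have := DP.mul hf' (P4a_mono hg (show m ≤ m + 2 by omega))
      rwa [show q + 2 + q' = q + q' + 2 by omega] at this
    · have := DP.mul (P4a_mono hf (show m ≤ m + 2 by omega)) hg'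
      rwa [← Nat.add_assoc] at this
    · exact (hf2 I Ω hΩ u hu t ht x hx).mul (hg2 I Ω hΩ u hu t ht x hx)

end Pool.Agent.GR
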